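import Pool.Agent.helper84.QI.Spec

/-! Project QI (MP_fd6eef_al), row ZMN: maximal normal subgroups. -/

set_option autoImplicit false

namespace Pool.Agent.QI

theorem ZMN : ZMN_stmt := by
  intro M _ hfg _
  obtain ⟨s, hs⟩ := (Group.fg_def.1 hfg : (⊤ : Subgroup M).FG)
  obtain ⟨K, -, ⟨⟨hK, hKt⟩, hmax⟩⟩ := zorn_le_nonempty₀ {K : Subgroup M | K.Normal ∧ K ≠ ⊤} (by
    intro c hc hch K₀ hK₀
    have hdir : DirectedOn (· ≤ ·) c := hch.directedOn
    have hne : c.Nonempty := ⟨K₀, hK₀⟩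
    refine ⟨sSup c, ⟨⟨fun n hn g => ?_⟩, fun htop => ?_⟩, fun z hz => le_sSup hz⟩
    · obtain ⟨K, hKc, hnK⟩ := (Subgroup.mem_sSup_of_directedOn hne hdir).1 hn
      exact (Subgroup.mem_sSup_of_directedOn hne hdir).2 ⟨K, hKc, (hc hKc).1.conj_mem n hnK g⟩
    · have key : ∀ t : Finset M, ∃ K ∈ c, ∀ x ∈ t, x ∈ K := by
        classical
        intro t
        induction t using Finset.induction_on with
        | empty => exact ⟨K₀, hK₀, by simp⟩
        | insert a t _ ih =>
          obtain ⟨K, hKc, hK⟩ := ih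
          have ha : a ∈ sSup c := by rw [htop]; exact Subgroup.mem_top a
          obtain ⟨K', hKc', hK'⟩ := (Subgroup.mem_sSup_of_directedOn hne hdir).1 ha
          obtain ⟨L, hL, h1, h2⟩ := hdir K hKc K' hKc'
          refine ⟨L, hL, fun x hx => ?_⟩
          rcases Finset.mem_insert.1 hx with rfl | hx
          · exact h2 hK'
          · exact h1 (hK x hx)
      obtain ⟨K, hKc, hK⟩ := key s
      refine (hc hKc).2 (top_le_iff.1 ?_)
      rw [← hs, Subgroup.closure_le]
      exact fun x hx => hK x hx) ⊥ ⟨inferInstance, bot_ne_top⟩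
  refine ⟨K, hK, hKt, fun K' hK' hle => ?_⟩
  by_cases h : K' = ⊤
  · exact Or.inr h
  · exact Or.inl (le_antisymm (hmax ⟨hK', h⟩ hle) hle)

end Pool.Agent.QI
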